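import Mathlib

/-!
# Greedy embedding lemma with loads

Tasks `i` with an old vertex set `S i`, a set `Pi i` of active pairs of old vertices and many
candidates `w ∈ Om i`, `w : Fin M → V`, each of which creates a set `E i w` of triples.  If the
tasks are well spread, candidates can be chosen such that all created triples are different,
avoid a forbidden set `F`, and all loads stay small.
-/

set_option linter.unusedSectionVars false

open Finset Classical

namespace MP5c685b.Emb

section Count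

variable {V : Type} [Fintype V]

theorem card_fix {M : ℕ} (J : Finset (Fin M)) (a : Fin M → V) :
    ((univ : Finset (Fin M → V)).filter (fun w => ∀ j ∈ J, w j = a j)).card *
      (Fintype.card V) ^ J.card = (Fintype.card V) ^ M := by
  have h1 : ((univ : Finset (Fin M → V)).filter (fun w => ∀ j ∈ J, w j = a j)) =
      Fintype.piFinset (fun j => if j ∈ J then {a j} else univ) := by
    ext w
    simp only [mem_filter, mem_univ, true_and, Fintype.mem_piFinset]
    constructor
    · intro h j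
      by_cases hj : j ∈ J
      · rw [if_pos hj]
        simpa using h j hj
      · rw [if_neg hj]
        exact mem_univ _
    · intro h j hj
      have := h j
      rw [if_pos hj] at this
      simpa using this
  rw [h1, Fintype.card_piFinset]
  have h2 : ∀ j : Fin M, (if j ∈ J then ({a j} : Finset V) else univ).card =
      if j ∈ J then 1 else Fintype.card V := by
    intro j
    split_ifs
    · simp
    · simp
  simp only [h2]
  have h3 : (Fintype.card V) ^ J.card = ∏ j : Fin M, if j ∈ J then Fintype.card V else 1 := by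
    rw [Finset.prod_ite_mem, Finset.univ_inter, Finset.prod_const]
  rw [h3, ← Finset.prod_mul_distrib]
  have h4 : ∀ j : Fin M, ((if j ∈ J then 1 else Fintype.card V) *
      if j ∈ J then Fintype.card V else 1) = Fintype.card V := by
    intro j
    split_ifs <;> simp
  simp only [h4]
  simp

theorem card_one {M : ℕ} (j : Fin M) (B : Finset V) :
    ((univ : Finset (Fin M → V)).filter (fun w => w j ∈ B)).card * Fintype.card V ≤
      B.card * (Fintype.card V) ^ M := by
  have h1 : ((univ : Finset (Fin M → V)).filter (fun w => w j ∈ B)) ⊆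
      B.biUnion (fun b => (univ : Finset (Fin M → V)).filter
        (fun w => ∀ i ∈ ({j} : Finset (Fin M)), w i = (fun _ => b) i)) := by
    intro w hw
    simp only [mem_filter, mem_univ, true_and, mem_biUnion, mem_singleton] at hw ⊢
    exact ⟨w j, hw, fun i hi => by rw [hi]⟩
  have h2 := Finset.card_le_card h1
  have h3 := Finset.card_biUnion_le (s := B) (t := fun b => (univ : Finset (Fin M → V)).filter
        (fun w => ∀ i ∈ ({j} : Finset (Fin M)), w i = (fun _ => b) i))
  calc _ ≤ (∑ b ∈ B, ((univ : Finset (Fin M → V)).filter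
        (fun w => ∀ i ∈ ({j} : Finset (Fin M)), w i = (fun _ => b) i)).card) * Fintype.card V :=
        Nat.mul_le_mul_right _ (h2.trans h3)
    _ = ∑ b ∈ B, (Fintype.card V) ^ M := by
        rw [Finset.sum_mul]
        apply Finset.sum_congr rfl
        intro b _
        have := card_fix ({j} : Finset (Fin M)) (fun _ => b)
        rw [Finset.card_singleton, pow_one] at this
        exact this
    _ = _ := by rw [Finset.sum_const, smul_eq_mul]

theorem card_two {M : ℕ} {j j' : Fin M} (hj : j ≠ j') (B : Finset (V × V)) :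
    ((univ : Finset (Fin M → V)).filter (fun w => (w j, w j') ∈ B)).card *
      (Fintype.card V) ^ 2 ≤ B.card * (Fintype.card V) ^ M := by
  have h1 : ((univ : Finset (Fin M → V)).filter (fun w => (w j, w j') ∈ B)) ⊆
      B.biUnion (fun b => (univ : Finset (Fin M → V)).filter
        (fun w => ∀ i ∈ ({j, j'} : Finset (Fin M)), w i = (fun i => if i = j then b.1 else b.2) i)) := by
    intro w hw
    simp only [mem_filter, mem_univ, true_and, mem_biUnion, mem_insert, mem_singleton] at hw ⊢
    refine ⟨(w j, w j'), hw, fun i hi => ?_⟩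
    rcases hi with rfl | rfl
    · simp
    · simp [hj.symm]
  have h2 := Finset.card_le_card h1
  have h3 := Finset.card_biUnion_le (s := B) (t := fun b => (univ : Finset (Fin M → V)).filter
        (fun w => ∀ i ∈ ({j, j'} : Finset (Fin M)), w i = (fun i => if i = j then b.1 else b.2) i))
  calc _ ≤ (∑ b ∈ B, ((univ : Finset (Fin M → V)).filter
        (fun w => ∀ i ∈ ({j, j'} : Finset (Fin M)),
          w i = (fun i => if i = j then b.1 else b.2) i)).card) * Fintype.card V ^ 2 :=
        Nat.mul_le_mul_right _ (h2.trans h3)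
    _ = ∑ b ∈ B, (Fintype.card V) ^ M := by
        rw [Finset.sum_mul]
        apply Finset.sum_congr rfl
        intro b _
        have := card_fix ({j, j'} : Finset (Fin M)) (fun i => if i = j then b.1 else b.2)
        rw [Finset.card_pair hj] at this
        exact this
    _ = _ := by rw [Finset.sum_const, smul_eq_mul]

theorem card_three {M : ℕ} {j j' j'' : Fin M} (h12 : j ≠ j') (h13 : j ≠ j'') (h23 : j' ≠ j'')
    (B : Finset (V × V × V)) :
    ((univ : Finset (Fin M → V)).filter (fun w => (w j, w j', w j'') ∈ B)).card *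
      (Fintype.card V) ^ 3 ≤ B.card * (Fintype.card V) ^ M := by
  have h1 : ((univ : Finset (Fin M → V)).filter (fun w => (w j, w j', w j'') ∈ B)) ⊆
      B.biUnion (fun b => (univ : Finset (Fin M → V)).filter
        (fun w => ∀ i ∈ ({j, j', j''} : Finset (Fin M)),
          w i = (fun i => if i = j then b.1 else if i = j' then b.2.1 else b.2.2) i)) := by
    intro w hw
    simp only [mem_filter, mem_univ, true_and, mem_biUnion, mem_insert, mem_singleton] at hw ⊢
    refine ⟨(w j, w j', w j''), hw, fun i hi => ?_⟩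
    rcases hi with rfl | rfl | rfl
    · simp
    · simp [h12.symm]
    · simp [h13.symm, h23.symm]
  have h2 := Finset.card_le_card h1
  have h3 := Finset.card_biUnion_le (s := B) (t := fun b => (univ : Finset (Fin M → V)).filter
        (fun w => ∀ i ∈ ({j, j', j''} : Finset (Fin M)),
          w i = (fun i => if i = j then b.1 else if i = j' then b.2.1 else b.2.2) i))
  calc _ ≤ (∑ b ∈ B, ((univ : Finset (Fin M → V)).filter
        (fun w => ∀ i ∈ ({j, j', j''} : Finset (Fin M)),
          w i = (fun i => if i = j then b.1 else if i = j' then b.2.1 else b.2.2) i)).card) *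
          Fintype.card V ^ 3 :=
        Nat.mul_le_mul_right _ (h2.trans h3)
    _ = ∑ b ∈ B, (Fintype.card V) ^ M := by
        rw [Finset.sum_mul]
        apply Finset.sum_congr rfl
        intro b _
        have := card_fix ({j, j', j''} : Finset (Fin M))
          (fun i => if i = j then b.1 else if i = j' then b.2.1 else b.2.2)
        have h4 : ({j, j', j''} : Finset (Fin M)).card = 3 := by
          rw [Finset.card_eq_three]
          exact ⟨j, j', j'', h12, h13, h23, rfl⟩
        rw [h4] at this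
        exact this
    _ = _ := by rw [Finset.sum_const, smul_eq_mul]

end Count

section Codeg

variable {V : Type} [Fintype V]

/-- The number of members of `U` which contain `x` and `y`. -/
noncomputable def codeg (U : Finset (Finset V)) (x y : V) : ℕ :=
  (U.filter (fun T => x ∈ T ∧ y ∈ T)).card

/-- Vertices which form a member of `U` with `x` and `y`. -/
theorem card_third_le (U : Finset (Finset V)) {x y : V} :
    ((univ : Finset V).filter (fun v => ({x, y, v} : Finset V) ∈ U ∧
      ({x, y, v} : Finset V).card = 3)).card ≤ codeg U x y := by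
  refine Finset.card_le_card_of_injOn (fun v => ({x, y, v} : Finset V)) ?_ ?_
  · intro v hv
    simp only [coe_filter, mem_univ, true_and, Set.mem_ofPred_eq] at hv
    simp only [coe_filter, Set.mem_ofPred_eq]
    exact ⟨hv.1, by simp, by simp⟩
  · intro v hv v' hv' h
    simp only [coe_filter, mem_univ, true_and, Set.mem_ofPred_eq] at hv hv'
    have hv1 : v ≠ x ∧ v ≠ y := by
      constructor
      · rintro rfl
        have h5 : ({v, y, v} : Finset V) = {v, y} := by ext z; simp; tauto
        have := hv.2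
        rw [h5] at this
        have := Finset.card_le_two (a := v) (b := y)
        omega
      · rintro rfl
        have h5 : ({x, v, v} : Finset V) = {x, v} := by ext z; simp
        have := hv.2
        rw [h5] at this
        have := Finset.card_le_two (a := x) (b := v)
        omega
    have h6 : v ∈ ({x, y, v'} : Finset V) := by
      have h7 : v ∈ ({x, y, v} : Finset V) := by simp
      simp only at h
      rwa [h] at h7
    simp only [mem_insert, mem_singleton] at h6
    rcases h6 with h6 | h6 | h6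
    · exact absurd h6 hv1.1
    · exact absurd h6 hv1.2
    · exact h6

end Codeg

section Select

variable {V : Type} [Fintype V]

theorem card_one_real {M : ℕ} (j : Fin M) (B : Finset V) {a : ℝ} (hn : 0 < Fintype.card V)
    (hB : (B.card : ℝ) ≤ a * (Fintype.card V : ℝ)) :
    (((univ : Finset (Fin M → V)).filter (fun w => w j ∈ B)).card : ℝ) ≤
      a * (Fintype.card V : ℝ) ^ M := by
  have h := card_one j B
  have hn' : (0 : ℝ) < (Fintype.card V : ℝ) := by exact_mod_cast hn
  have h' : (((univ : Finset (Fin M → V)).filter (fun w => w j ∈ B)).card : ℝ) *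
      (Fintype.card V : ℝ) ≤ (B.card : ℝ) * (Fintype.card V : ℝ) ^ M := by exact_mod_cast h
  have h2 : (B.card : ℝ) * (Fintype.card V : ℝ) ^ M ≤
      (a * (Fintype.card V : ℝ) ^ M) * (Fintype.card V : ℝ) := by
    have := mul_le_mul_of_nonneg_right hB (pow_nonneg hn'.le M)
    linarith [this, mul_comm (a * (Fintype.card V : ℝ)) ((Fintype.card V : ℝ) ^ M),
      mul_assoc a ((Fintype.card V : ℝ) ^ M) (Fintype.card V : ℝ),
      mul_comm ((Fintype.card V : ℝ) ^ M) (Fintype.card V : ℝ),
      mul_assoc a (Fintype.card V : ℝ) ((Fintype.card V : ℝ) ^ M)]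
  exact le_of_mul_le_mul_right (h'.trans h2) hn'

theorem card_two_real {M : ℕ} {j j' : Fin M} (hj : j ≠ j') (B : Finset (V × V)) {a : ℝ}
    (hn : 0 < Fintype.card V) (hB : (B.card : ℝ) ≤ a * (Fintype.card V : ℝ) ^ 2) :
    (((univ : Finset (Fin M → V)).filter (fun w => (w j, w j') ∈ B)).card : ℝ) ≤
      a * (Fintype.card V : ℝ) ^ M := by
  have h := card_two hj B
  have hn' : (0 : ℝ) < (Fintype.card V : ℝ) := by exact_mod_cast hn
  have h' : (((univ : Finset (Fin M → V)).filter (fun w => (w j, w j') ∈ B)).card : ℝ) *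
      (Fintype.card V : ℝ) ^ 2 ≤ (B.card : ℝ) * (Fintype.card V : ℝ) ^ M := by exact_mod_cast h
  have h2 : (B.card : ℝ) * (Fintype.card V : ℝ) ^ M ≤
      (a * (Fintype.card V : ℝ) ^ M) * (Fintype.card V : ℝ) ^ 2 := by
    have := mul_le_mul_of_nonneg_right hB (pow_nonneg hn'.le M)
    calc _ ≤ a * (Fintype.card V : ℝ) ^ 2 * (Fintype.card V : ℝ) ^ M := this
      _ = _ := by ring
  exact le_of_mul_le_mul_right (h'.trans h2) (by positivity)

theorem card_three_real {M : ℕ} {j j' j'' : Fin M} (h12 : j ≠ j') (h13 : j ≠ j'')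
    (h23 : j' ≠ j'') (B : Finset (V × V × V)) {a : ℝ}
    (hn : 0 < Fintype.card V) (hB : (B.card : ℝ) ≤ a * (Fintype.card V : ℝ) ^ 3) :
    (((univ : Finset (Fin M → V)).filter (fun w => (w j, w j', w j'') ∈ B)).card : ℝ) ≤
      a * (Fintype.card V : ℝ) ^ M := by
  have h := card_three h12 h13 h23 B
  have hn' : (0 : ℝ) < (Fintype.card V : ℝ) := by exact_mod_cast hn
  have h' : (((univ : Finset (Fin M → V)).filter (fun w => (w j, w j', w j'') ∈ B)).card : ℝ) *
      (Fintype.card V : ℝ) ^ 3 ≤ (B.card : ℝ) * (Fintype.card V : ℝ) ^ M := by exact_mod_cast h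
  have h2 : (B.card : ℝ) * (Fintype.card V : ℝ) ^ M ≤
      (a * (Fintype.card V : ℝ) ^ M) * (Fintype.card V : ℝ) ^ 3 := by
    have := mul_le_mul_of_nonneg_right hB (pow_nonneg hn'.le M)
    calc _ ≤ a * (Fintype.card V : ℝ) ^ 3 * (Fintype.card V : ℝ) ^ M := this
      _ = _ := by ring
  exact le_of_mul_le_mul_right (h'.trans h2) (by positivity)

theorem card_biUnion_le_real {κ β : Type} [DecidableEq β] (I : Finset κ) (f : κ → Finset β) {b k : ℝ}
    (hb : 0 ≤ b) (hI : (I.card : ℝ) ≤ k) (h : ∀ i ∈ I, ((f i).card : ℝ) ≤ b) :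
    ((I.biUnion f).card : ℝ) ≤ k * b := by
  have h1 : ((I.biUnion f).card : ℝ) ≤ ∑ i ∈ I, ((f i).card : ℝ) := by
    exact_mod_cast Finset.card_biUnion_le
  have h2 : ∑ i ∈ I, ((f i).card : ℝ) ≤ ∑ i ∈ I, b := Finset.sum_le_sum h
  rw [Finset.sum_const, nsmul_eq_mul] at h2
  exact h1.trans (h2.trans (mul_le_mul_of_nonneg_right hI hb))

/-- Pairs which form a member of `U` with `x`. -/
noncomputable def third2 (U : Finset (Finset V)) (x : V) : Finset (V × V) :=
  univ.filter (fun p => ({x, p.1, p.2} : Finset V) ∈ U ∧ ({x, p.1, p.2} : Finset V).card = 3)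

/-- Triples which form a member of `U`. -/
noncomputable def third3 (U : Finset (Finset V)) : Finset (V × V × V) :=
  univ.filter (fun p => ({p.1, p.2.1, p.2.2} : Finset V) ∈ U ∧
    ({p.1, p.2.1, p.2.2} : Finset V).card = 3)

theorem card_third2_le (U : Finset (Finset V)) {θ : ℝ} (hθ : 0 ≤ θ)
    (hU : ∀ x y, x ≠ y → (codeg U x y : ℝ) ≤ θ * (Fintype.card V : ℝ)) (x : V) :
    ((third2 U x).card : ℝ) ≤ θ * (Fintype.card V : ℝ) ^ 2 := by
  have h1 : third2 U x ⊆ (univ : Finset V).biUnion (fun y =>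
      ((univ : Finset V).filter (fun v => ({x, y, v} : Finset V) ∈ U ∧
        ({x, y, v} : Finset V).card = 3)).image (fun v => (y, v))) := by
    rintro ⟨y, v⟩ hp
    simp only [third2, mem_filter, mem_univ, true_and] at hp
    simp only [mem_biUnion, mem_univ, true_and, mem_image, mem_filter, Prod.mk.injEq]
    exact ⟨y, v, hp, rfl, rfl⟩
  have h2 : ((third2 U x).card : ℝ) ≤ (Fintype.card V : ℝ) * (θ * (Fintype.card V : ℝ)) := by
    refine le_trans (by exact_mod_cast Finset.card_le_card h1)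
      (card_biUnion_le_real _ _ (by positivity) (by simp) ?_)
    intro y _
    refine le_trans (Nat.cast_le.mpr Finset.card_image_le) ?_
    by_cases hxy : x = y
    · have h0 : ((univ : Finset V).filter (fun v => ({x, y, v} : Finset V) ∈ U ∧
        ({x, y, v} : Finset V).card = 3)) = ∅ := by
        apply Finset.filter_eq_empty_iff.mpr
        rintro v - ⟨-, hv⟩
        rw [hxy] at hv
        have h5 : ({y, y, v} : Finset V) = {y, v} := by ext z; simp
        rw [h5] at hv
        have := Finset.card_le_two (a := y) (b := v)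
        omega
      rw [h0]
      simp only [card_empty, Nat.cast_zero]
      positivity
    · exact le_trans (by exact_mod_cast card_third_le U) (hU x y hxy)
  calc _ ≤ _ := h2
    _ = _ := by ring

theorem card_third3_le (U : Finset (Finset V)) {θ : ℝ} (hθ : 0 ≤ θ)
    (hU : ∀ x y, x ≠ y → (codeg U x y : ℝ) ≤ θ * (Fintype.card V : ℝ)) :
    ((third3 U).card : ℝ) ≤ θ * (Fintype.card V : ℝ) ^ 3 := by
  have h1 : third3 U ⊆ (univ : Finset V).biUnion (fun x =>
      (third2 U x).image (fun p => (x, p))) := by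
    rintro ⟨x, p⟩ hp
    simp only [third3, mem_filter, mem_univ, true_and] at hp
    simp only [third2, mem_biUnion, mem_univ, true_and, mem_image, mem_filter, Prod.mk.injEq]
    exact ⟨x, p, hp, rfl, rfl⟩
  have h2 : ((third3 U).card : ℝ) ≤ (Fintype.card V : ℝ) * (θ * (Fintype.card V : ℝ) ^ 2) := by
    refine le_trans (by exact_mod_cast Finset.card_le_card h1)
      (card_biUnion_le_real _ _ (by positivity) (by simp) ?_)
    intro x _
    exact le_trans (by exact_mod_cast Finset.card_image_le) (card_third2_le U hθ hU x)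
  calc _ ≤ _ := h2
    _ = _ := by ring

set_option maxHeartbeats 4000000 in
/-- One step of the greedy choice. -/
theorem select {s M : ℕ} (S : Finset V) (hS : S.card ≤ s)
    (Om : Finset (Fin M → V)) (E : (Fin M → V) → Finset (Finset V)) {c a1 a2 a3 θ : ℝ}
    (ha1 : 0 ≤ a1) (ha2 : 0 ≤ a2) (ha3 : 0 ≤ a3) (hθ : 0 ≤ θ)
    (hOm : c * (Fintype.card V : ℝ) ^ M ≤ (Om.card : ℝ)) (hn : 0 < Fintype.card V)
    (Sat1 : Finset V) (h1 : (Sat1.card : ℝ) ≤ a1 * (Fintype.card V : ℝ))
    (Sat2 : V → Finset V) (h2 : ∀ x ∈ S, ((Sat2 x).card : ℝ) ≤ a2 * (Fintype.card V : ℝ))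
    (Sat3 : Finset (V × V)) (h3 : (Sat3.card : ℝ) ≤ a3 * (Fintype.card V : ℝ) ^ 2)
    (U : Finset (Finset V)) (hU : ∀ x y, x ≠ y → (codeg U x y : ℝ) ≤ θ * (Fintype.card V : ℝ))
    (hE : ∀ w ∈ Om, ∀ T ∈ E w, T.card = 3 ∧ (∀ x ∈ T, x ∈ S ∨ ∃ j, w j = x) ∧ ∃ j, w j ∈ T)
    (hlt : (M : ℝ) * a1 + (s * M : ℝ) * a2 + (M * M : ℝ) * a3 + (s * s * M : ℝ) * θ +
      (s * (M * M) : ℝ) * θ + (M * (M * M) : ℝ) * θ < c) :
    ∃ w ∈ Om, (∀ j, w j ∉ Sat1) ∧ (∀ x ∈ S, ∀ j, w j ∉ Sat2 x) ∧
      (∀ j j', j ≠ j' → (w j, w j') ∉ Sat3) ∧ Disjoint (E w) U := by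
  by_contra hcon
  push Not at hcon
  set n : ℝ := (Fintype.card V : ℝ) with hndef
  have hn' : (0 : ℝ) < n := by rw [hndef]; exact_mod_cast hn
  have hnM : (0 : ℝ) < n ^ M := pow_pos hn' M
  have hSr : (S.card : ℝ) ≤ s := by exact_mod_cast hS
  let B1 : Finset (Fin M → V) := (univ : Finset (Fin M)).biUnion (fun j =>
    (univ : Finset (Fin M → V)).filter (fun w => w j ∈ Sat1))
  let B2 : Finset (Fin M → V) := (S ×ˢ (univ : Finset (Fin M))).biUnion (fun p =>
    (univ : Finset (Fin M → V)).filter (fun w => w p.2 ∈ Sat2 p.1))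
  let B3 : Finset (Fin M → V) := ((univ : Finset (Fin M × Fin M)).filter (fun p => p.1 ≠ p.2)).biUnion
    (fun p => (univ : Finset (Fin M → V)).filter (fun w => (w p.1, w p.2) ∈ Sat3))
  let B4 : Finset (Fin M → V) := (((S ×ˢ S).filter (fun p => p.1 ≠ p.2)) ×ˢ
    (univ : Finset (Fin M))).biUnion
    (fun p => (univ : Finset (Fin M → V)).filter (fun w => w p.2 ∈ (univ : Finset V).filter
      (fun v => ({p.1.1, p.1.2, v} : Finset V) ∈ U ∧ ({p.1.1, p.1.2, v} : Finset V).card = 3)))
  let B5 : Finset (Fin M → V) := (S ×ˢ ((univ : Finset (Fin M × Fin M)).filter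
    (fun p => p.1 ≠ p.2))).biUnion
    (fun p => (univ : Finset (Fin M → V)).filter (fun w => (w p.2.1, w p.2.2) ∈ third2 U p.1))
  let B6 : Finset (Fin M → V) := ((univ : Finset (Fin M × Fin M × Fin M)).filter
    (fun p => p.1 ≠ p.2.1 ∧ p.1 ≠ p.2.2 ∧ p.2.1 ≠ p.2.2)).biUnion
    (fun p => (univ : Finset (Fin M → V)).filter (fun w => (w p.1, w p.2.1, w p.2.2) ∈ third3 U))
  have hB1 : (B1.card : ℝ) ≤ (M : ℝ) * (a1 * n ^ M) := by
    refine card_biUnion_le_real _ _ (by positivity) (by simp) ?_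
    intro j _
    exact card_one_real j Sat1 hn h1
  have hB2 : (B2.card : ℝ) ≤ (s * M : ℝ) * (a2 * n ^ M) := by
    refine card_biUnion_le_real _ _ (by positivity) ?_ ?_
    · rw [card_product]
      push_cast
      rw [Finset.card_univ, Fintype.card_fin]
      exact mul_le_mul_of_nonneg_right hSr (by positivity)
    · rintro ⟨x, j⟩ hp
      rw [mem_product] at hp
      exact card_one_real j (Sat2 x) hn (h2 x hp.1)
  have hpairs : (((univ : Finset (Fin M × Fin M)).filter (fun p => p.1 ≠ p.2)).card : ℝ) ≤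
      (M * M : ℝ) := by
    have : ((univ : Finset (Fin M × Fin M)).filter (fun p => p.1 ≠ p.2)).card ≤ M * M := by
      refine (Finset.card_filter_le _ _).trans ?_
      simp
    exact_mod_cast this
  have htrip : (((univ : Finset (Fin M × Fin M × Fin M)).filter
      (fun p => p.1 ≠ p.2.1 ∧ p.1 ≠ p.2.2 ∧ p.2.1 ≠ p.2.2)).card : ℝ) ≤ (M * (M * M) : ℝ) := by
    have : ((univ : Finset (Fin M × Fin M × Fin M)).filter
        (fun p => p.1 ≠ p.2.1 ∧ p.1 ≠ p.2.2 ∧ p.2.1 ≠ p.2.2)).card ≤ M * (M * M) := by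
      refine (Finset.card_filter_le _ _).trans ?_
      simp
    exact_mod_cast this
  have hB3 : (B3.card : ℝ) ≤ (M * M : ℝ) * (a3 * n ^ M) := by
    refine card_biUnion_le_real _ _ (by positivity) hpairs ?_
    rintro ⟨j, j'⟩ hp
    simp only [mem_filter, mem_univ, true_and] at hp
    exact card_two_real hp Sat3 hn h3
  have hB4 : (B4.card : ℝ) ≤ (s * s * M : ℝ) * (θ * n ^ M) := by
    refine card_biUnion_le_real _ _ (by positivity) ?_ ?_
    · rw [card_product]
      push_cast
      rw [Finset.card_univ, Fintype.card_fin]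
      refine mul_le_mul_of_nonneg_right ?_ (by positivity)
      have : (((S ×ˢ S).filter (fun p => p.1 ≠ p.2)).card : ℝ) ≤ (S.card : ℝ) * S.card := by
        have h := Finset.card_filter_le (S ×ˢ S) (fun p => p.1 ≠ p.2)
        rw [card_product] at h
        exact_mod_cast h
      refine this.trans ?_
      exact mul_le_mul hSr hSr (by positivity) (by positivity)
    · rintro ⟨⟨x, y⟩, j⟩ hp
      simp only [mem_product, mem_filter, mem_univ, and_true] at hp
      refine card_one_real j _ hn ?_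
      exact le_trans (by exact_mod_cast card_third_le U) (hU x y hp.2)
  have hB5 : (B5.card : ℝ) ≤ (s * (M * M) : ℝ) * (θ * n ^ M) := by
    refine card_biUnion_le_real _ _ (by positivity) ?_ ?_
    · rw [card_product]
      push_cast
      exact mul_le_mul hSr hpairs (by positivity) (by positivity)
    · rintro ⟨x, j, j'⟩ hp
      simp only [mem_product, mem_filter, mem_univ, true_and] at hp
      exact card_two_real hp.2 _ hn (card_third2_le U hθ hU x)
  have hB6 : (B6.card : ℝ) ≤ (M * (M * M) : ℝ) * (θ * n ^ M) := by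
    refine card_biUnion_le_real _ _ (by positivity) htrip ?_
    rintro ⟨j, j', j''⟩ hp
    simp only [mem_filter, mem_univ, true_and] at hp
    exact card_three_real hp.1 hp.2.1 hp.2.2 _ hn (card_third3_le U hθ hU)
  have hsub : Om ⊆ B1 ∪ B2 ∪ B3 ∪ B4 ∪ B5 ∪ B6 := by
    intro w hw
    by_contra hnot
    simp only [mem_union, not_or] at hnot
    obtain ⟨⟨⟨⟨⟨n1, n2⟩, n3⟩, n4⟩, n5⟩, n6⟩ := hnot
    simp only [B1, B2, B3, B4, B5, B6, mem_biUnion, mem_filter, mem_univ, true_and, mem_product,
      not_exists, not_and, and_true] at n1 n2 n3 n4 n5 n6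
    refine hcon w hw n1 (fun x hx j => n2 (x, j) hx) (fun j j' hjj => n3 (j, j') hjj) ?_
    rw [Finset.disjoint_left]
    intro T hT hTU
    obtain ⟨hc3, hold, j, hj⟩ := hE w hw T hT
    have he : (T.erase (w j)).card = 2 := by rw [Finset.card_erase_of_mem hj, hc3]
    obtain ⟨p, q, hpq, hpqT⟩ := Finset.card_eq_two.mp he
    have hTeq : T = {p, q, w j} := by
      rw [← Finset.insert_erase hj, hpqT]
      ext z
      simp only [mem_insert, mem_singleton]
      tauto
    have hpT : p ∈ T.erase (w j) := by rw [hpqT]; simp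
    have hqT : q ∈ T.erase (w j) := by rw [hpqT]; simp
    rw [Finset.mem_erase] at hpT hqT
    rcases hold p hpT.2 with hpS | ⟨j', hj'⟩
    · rcases hold q hqT.2 with hqS | ⟨j'', hj''⟩
      · refine n4 ((p, q), j) ⟨⟨hpS, hqS⟩, hpq⟩ ?_ ?_
        · simp only
          rw [← hTeq]
          exact hTU
        · simp only
          rw [← hTeq]
          exact hc3
      · refine n5 (p, (j'', j)) ⟨hpS, ?_⟩ ?_
        · simp only
          rintro rfl
          exact hqT.1 hj''.symm
        · simp only [third2, mem_filter, mem_univ, true_and]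
          rw [hj'', ← hTeq]
          exact ⟨hTU, hc3⟩
    · rcases hold q hqT.2 with hqS | ⟨j'', hj''⟩
      · refine n5 (q, (j', j)) ⟨hqS, ?_⟩ ?_
        · simp only
          rintro rfl
          exact hpT.1 hj'.symm
        · simp only [third2, mem_filter, mem_univ, true_and]
          have hTeq' : T = {q, p, w j} := by
            rw [hTeq]
            ext z
            simp only [mem_insert, mem_singleton]
            tauto
          rw [hj', ← hTeq']
          exact ⟨hTU, hc3⟩
      · refine n6 (j', (j'', j)) ⟨?_, ?_, ?_⟩ ?_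
        · simp only
          rintro rfl
          exact hpq (hj'.symm.trans hj'')
        · simp only
          rintro rfl
          exact hpT.1 hj'.symm
        · simp only
          rintro rfl
          exact hqT.1 hj''.symm
        · simp only [third3, mem_filter, mem_univ, true_and]
          rw [hj', hj'', ← hTeq]
          exact ⟨hTU, hc3⟩
  have hcard : (Om.card : ℝ) ≤ (B1.card : ℝ) + B2.card + B3.card + B4.card + B5.card + B6.card := by
    have h := (Finset.card_le_card hsub).trans
      ((Finset.card_union_le _ _).trans (Nat.add_le_add_right ((Finset.card_union_le _ _).trans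
      (Nat.add_le_add_right ((Finset.card_union_le _ _).trans (Nat.add_le_add_right
      ((Finset.card_union_le _ _).trans (Nat.add_le_add_right (Finset.card_union_le _ _) _)) _)) _)) _))
    exact_mod_cast h
  have hfin : c * n ^ M ≤ ((M : ℝ) * a1 + (s * M : ℝ) * a2 + (M * M : ℝ) * a3 +
      (s * s * M : ℝ) * θ + (s * (M * M) : ℝ) * θ + (M * (M * M) : ℝ) * θ) * n ^ M := by
    calc c * n ^ M ≤ (Om.card : ℝ) := hOm
      _ ≤ _ := hcard
      _ ≤ (M : ℝ) * (a1 * n ^ M) + (s * M : ℝ) * (a2 * n ^ M) + (M * M : ℝ) * (a3 * n ^ M) +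
          (s * s * M : ℝ) * (θ * n ^ M) + (s * (M * M) : ℝ) * (θ * n ^ M) +
          (M * (M * M) : ℝ) * (θ * n ^ M) := by linarith
      _ = _ := by ring
  have := le_of_mul_le_mul_right hfin hnM
  linarith

end Select

section Main

variable {V : Type} [Fintype V] {ι : Type}

/-- The vertices of task `i`. -/
noncomputable def Qs {M : ℕ} (S : ι → Finset V) (w : ι → Fin M → V) (i : ι) : Finset V :=
  S i ∪ univ.image (w i)

theorem mem_Qs {M : ℕ} {S : ι → Finset V} {w : ι → Fin M → V} {i : ι} {x : V} :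
    x ∈ Qs S w i ↔ x ∈ S i ∨ ∃ j, w i j = x := by
  simp [Qs]

/-- The number of tasks which use `v` as a new vertex. -/
noncomputable def L1 {M : ℕ} (A : Finset ι) (w : ι → Fin M → V) (v : V) : ℕ :=
  (A.filter (fun i => ∃ j, w i j = v)).card

/-- The number of tasks which use `x` and `y`, not both as old vertices. -/
noncomputable def L2 {M : ℕ} (A : Finset ι) (S : ι → Finset V) (w : ι → Fin M → V) (x y : V) : ℕ :=
  (A.filter (fun i => x ∈ Qs S w i ∧ y ∈ Qs S w i ∧ ¬ (x ∈ S i ∧ y ∈ S i))).card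

theorem L2_comm {M : ℕ} (A : Finset ι) (S : ι → Finset V) (w : ι → Fin M → V) (x y : V) :
    L2 A S w x y = L2 A S w y x := by
  unfold L2
  congr 1
  ext i
  simp only [mem_filter]
  tauto

theorem card_Qs_le {M s : ℕ} {S : ι → Finset V} (hS : ∀ i, (S i).card ≤ s)
    (w : ι → Fin M → V) (i : ι) : (Qs S w i).card ≤ s + M := by
  refine (Finset.card_union_le _ _).trans (Nat.add_le_add (hS i) ?_)
  exact Finset.card_image_le.trans (by simp)

theorem sum_L1_le {M : ℕ} (A : Finset ι) (w : ι → Fin M → V) :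
    ∑ v, L1 A w v ≤ M * A.card := by
  unfold L1
  simp only [Finset.card_filter]
  rw [Finset.sum_comm]
  have h : ∀ i ∈ A, (∑ v : V, if (∃ j, w i j = v) then 1 else 0) ≤ M := by
    intro i _
    rw [← Finset.card_filter]
    have h1 : (univ : Finset V).filter (fun v => ∃ j, w i j = v) = univ.image (w i) := by
      ext v
      simp
    rw [h1]
    exact Finset.card_image_le.trans (by simp)
  refine (Finset.sum_le_sum h).trans ?_
  rw [Finset.sum_const, smul_eq_mul, mul_comm]

theorem sum_L2_le {M s : ℕ} (A : Finset ι) {S : ι → Finset V} (hS : ∀ i, (S i).card ≤ s)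
    (w : ι → Fin M → V) (x : V) :
    ∑ y, L2 A S w x y ≤ (s + M) * ((A.filter (fun i => x ∈ S i)).card + L1 A w x) := by
  unfold L2
  simp only [Finset.card_filter]
  rw [Finset.sum_comm]
  have h : ∀ i ∈ A, (∑ y : V, if (x ∈ Qs S w i ∧ y ∈ Qs S w i ∧ ¬ (x ∈ S i ∧ y ∈ S i)) then 1 else 0) ≤
      (s + M) * ((if x ∈ S i then 1 else 0) + if (∃ j, w i j = x) then 1 else 0) := by
    intro i _
    rw [← Finset.card_filter]
    by_cases hx : x ∈ Qs S w i
    · have h1 : (univ.filter (fun y => x ∈ Qs S w i ∧ y ∈ Qs S w i ∧ ¬ (x ∈ S i ∧ y ∈ S i))).card ≤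
          s + M := by
        refine (Finset.card_le_card ?_).trans (card_Qs_le hS w i)
        intro y hy
        simp only [mem_filter, mem_univ, true_and] at hy
        exact hy.2.1
      have h2 : 1 ≤ (if x ∈ S i then 1 else 0) + if (∃ j, w i j = x) then 1 else 0 := by
        rcases mem_Qs.mp hx with h3 | h3
        · rw [if_pos h3]
          omega
        · rw [if_pos h3]
          omega
      calc _ ≤ (s + M) * 1 := by rw [mul_one]; exact h1
        _ ≤ _ := Nat.mul_le_mul_left _ h2
    · have h0 : (univ.filter (fun y => x ∈ Qs S w i ∧ y ∈ Qs S w i ∧ ¬ (x ∈ S i ∧ y ∈ S i))) = ∅ := by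
        apply Finset.filter_eq_empty_iff.mpr
        rintro y - hy
        exact hx hy.1
      rw [h0]
      simp
  refine (Finset.sum_le_sum h).trans ?_
  rw [← Finset.mul_sum, Finset.sum_add_distrib]
  refine Nat.mul_le_mul_left _ (le_of_eq ?_)
  unfold L1
  rw [Finset.card_filter]

theorem sum_L2_le' {M s : ℕ} (A : Finset ι) {S : ι → Finset V} (hS : ∀ i, (S i).card ≤ s)
    (w : ι → Fin M → V) :
    ∑ p : V × V, L2 A S w p.1 p.2 ≤ (s + M) * (s + M) * A.card := by
  unfold L2
  simp only [Finset.card_filter]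
  rw [Finset.sum_comm]
  have h : ∀ i ∈ A, (∑ p : V × V, if (p.1 ∈ Qs S w i ∧ p.2 ∈ Qs S w i ∧
      ¬ (p.1 ∈ S i ∧ p.2 ∈ S i)) then 1 else 0) ≤ (s + M) * (s + M) := by
    intro i _
    rw [← Finset.card_filter]
    refine (Finset.card_le_card (t := Qs S w i ×ˢ Qs S w i) ?_).trans ?_
    · intro p hp
      simp only [mem_filter, mem_univ, true_and] at hp
      exact mem_product.mpr ⟨hp.1, hp.2.1⟩
    · rw [card_product]
      exact Nat.mul_le_mul (card_Qs_le hS w i) (card_Qs_le hS w i)
  refine (Finset.sum_le_sum h).trans ?_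
  rw [Finset.sum_const, smul_eq_mul, mul_comm]

theorem codeg_union_le (U U' : Finset (Finset V)) (x y : V) :
    codeg (U ∪ U') x y ≤ codeg U x y + codeg U' x y := by
  unfold codeg
  rw [Finset.filter_union]
  exact Finset.card_union_le _ _

/-- The codegrees of the created triples. -/
theorem codeg_biUnion_le {M s : ℕ} (A : Finset ι) {S : ι → Finset V} (hS : ∀ i, (S i).card ≤ s)
    (Pi : ι → Finset (Finset V)) (E : ι → (Fin M → V) → Finset (Finset V)) (w : ι → Fin M → V)
    (hE : ∀ i ∈ A, ∀ T ∈ E i (w i), T.card = 3 ∧ (∀ x ∈ T, x ∈ S i ∨ ∃ j, w i j = x) ∧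
      (∃ j, w i j ∈ T) ∧ ∀ x ∈ T, ∀ y ∈ T, x ≠ y → x ∈ S i → y ∈ S i → {x, y} ∈ Pi i)
    {x y : V} (hxy : x ≠ y) :
    codeg (A.biUnion (fun i => E i (w i))) x y ≤
      (s + M) * (L2 A S w x y + (A.filter (fun i => {x, y} ∈ Pi i)).card) := by
  have h1 : codeg (A.biUnion (fun i => E i (w i))) x y ≤
      ∑ i ∈ A, ((E i (w i)).filter (fun T => x ∈ T ∧ y ∈ T)).card := by
    unfold codeg
    rw [Finset.filter_biUnion]
    exact Finset.card_biUnion_le
  have h2 : ∀ i ∈ A, ((E i (w i)).filter (fun T => x ∈ T ∧ y ∈ T)).card ≤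
      (s + M) * ((if (x ∈ Qs S w i ∧ y ∈ Qs S w i ∧ ¬ (x ∈ S i ∧ y ∈ S i)) then 1 else 0) +
        if {x, y} ∈ Pi i then 1 else 0) := by
    intro i hi
    by_cases hemp : ((E i (w i)).filter (fun T => x ∈ T ∧ y ∈ T)) = ∅
    · rw [hemp]
      simp
    · obtain ⟨T, hT⟩ := Finset.nonempty_iff_ne_empty.mpr hemp
      rw [Finset.mem_filter] at hT
      obtain ⟨hT1, hxT, hyT⟩ := hT
      obtain ⟨hc, hold, -, hpi⟩ := hE i hi T hT1
      have hcnt : ((E i (w i)).filter (fun T => x ∈ T ∧ y ∈ T)).card ≤ s + M := by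
        have hsub : ((E i (w i)).filter (fun T => x ∈ T ∧ y ∈ T)) ⊆
            (Qs S w i).image (fun z => ({x, y, z} : Finset V)) := by
          intro T' hT'
          rw [Finset.mem_filter] at hT'
          obtain ⟨hT1', hxT', hyT'⟩ := hT'
          obtain ⟨hc', hold', -, -⟩ := hE i hi T' hT1'
          have he : ((T'.erase x).erase y).card = 1 := by
            rw [Finset.card_erase_of_mem (Finset.mem_erase.mpr ⟨hxy.symm, hyT'⟩),
              Finset.card_erase_of_mem hxT', hc']
          obtain ⟨z, hz⟩ := Finset.card_eq_one.mp he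
          have hzT : z ∈ (T'.erase x).erase y := by rw [hz]; simp
          rw [Finset.mem_erase, Finset.mem_erase] at hzT
          rw [Finset.mem_image]
          refine ⟨z, mem_Qs.mpr (hold' z hzT.2.2), ?_⟩
          have h5 : T' = insert x (insert y ((T'.erase x).erase y)) := by
            rw [Finset.insert_erase (Finset.mem_erase.mpr ⟨hxy.symm, hyT'⟩),
              Finset.insert_erase hxT']
          rw [h5, hz]
        exact (Finset.card_le_card hsub).trans (Finset.card_image_le.trans (card_Qs_le hS w i))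
      have hone : 1 ≤ (if (x ∈ Qs S w i ∧ y ∈ Qs S w i ∧ ¬ (x ∈ S i ∧ y ∈ S i)) then 1 else 0) +
          if {x, y} ∈ Pi i then 1 else 0 := by
        by_cases hb : x ∈ S i ∧ y ∈ S i
        · rw [if_pos (hpi x hxT y hyT hxy hb.1 hb.2)]
          omega
        · rw [if_pos ⟨mem_Qs.mpr (hold x hxT), mem_Qs.mpr (hold y hyT), hb⟩]
          omega
      calc _ ≤ (s + M) * 1 := by rw [mul_one]; exact hcnt
        _ ≤ _ := Nat.mul_le_mul_left _ hone
  refine h1.trans ((Finset.sum_le_sum h2).trans ?_)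
  rw [← Finset.mul_sum, Finset.sum_add_distrib]
  refine Nat.mul_le_mul_left _ (le_of_eq ?_)
  unfold L2
  rw [Finset.card_filter, Finset.card_filter]

end Main

section Final

variable {V : Type} [Fintype V] {ι : Type}

/-- The induction over the tasks. -/
theorem emb_aux {s M : ℕ} {c η1 η2 lam : ℝ} (hη1 : 0 < η1) (hη2 : 0 < η2) (hlam : 0 < lam)
    (hn : 0 < Fintype.card V) (hn1 : 2 ≤ η1 * (Fintype.card V : ℝ) ^ 2)
    (hn2 : 2 ≤ η2 * (Fintype.card V : ℝ))
    (hlt : (M : ℝ) * (2 * M * lam / η1) + (s * M : ℝ) * (2 * (s + M) * (lam + η1) / η2) +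
      (M * M : ℝ) * (2 * (s + M) * (s + M) * lam / η2) +
      (s * s * M : ℝ) * (lam + (s + M) * (η2 + lam)) +
      (s * (M * M) : ℝ) * (lam + (s + M) * (η2 + lam)) +
      (M * (M * M) : ℝ) * (lam + (s + M) * (η2 + lam)) < c)
    [Fintype ι] (S : ι → Finset V) (Pi : ι → Finset (Finset V))
    (Om : ι → Finset (Fin M → V)) (E : ι → (Fin M → V) → Finset (Finset V))
    (F : Finset (Finset V))
    (hN : (Fintype.card ι : ℝ) ≤ lam * (Fintype.card V : ℝ) ^ 3)
    (hS : ∀ i, (S i).card ≤ s)
    (hOm : ∀ i, c * (Fintype.card V : ℝ) ^ M ≤ ((Om i).card : ℝ))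
    (hw : ∀ i, ∀ w ∈ Om i, Function.Injective w ∧ ∀ j, w j ∉ S i)
    (hE : ∀ i, ∀ w ∈ Om i, ∀ T ∈ E i w, T.card = 3 ∧ (∀ x ∈ T, x ∈ S i ∨ ∃ j, w j = x) ∧
      (∃ j, w j ∈ T) ∧ ∀ x ∈ T, ∀ y ∈ T, x ≠ y → x ∈ S i → y ∈ S i → {x, y} ∈ Pi i)
    (hS1 : ∀ x, ((univ.filter (fun i => x ∈ S i)).card : ℝ) ≤ lam * (Fintype.card V : ℝ) ^ 2)
    (hPi : ∀ x y, x ≠ y → ((univ.filter (fun i => {x, y} ∈ Pi i)).card : ℝ) ≤
      lam * (Fintype.card V : ℝ))
    (hF : ∀ x y, x ≠ y → (codeg F x y : ℝ) ≤ lam * (Fintype.card V : ℝ)) (A : Finset ι) :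
    ∃ w : ι → Fin M → V, (∀ i ∈ A, w i ∈ Om i) ∧
      (∀ i ∈ A, ∀ j ∈ A, i ≠ j → Disjoint (E i (w i)) (E j (w j))) ∧
      (∀ i ∈ A, Disjoint (E i (w i)) F) ∧
      (∀ v, (L1 A w v : ℝ) ≤ η1 * (Fintype.card V : ℝ) ^ 2) ∧
      (∀ x y, x ≠ y → (L2 A S w x y : ℝ) ≤ η2 * (Fintype.card V : ℝ)) := by
  set n : ℝ := (Fintype.card V : ℝ) with hndef
  have hn' : (0 : ℝ) < n := by rw [hndef]; exact_mod_cast hn
  induction A using Finset.induction_on with
  | empty =>
    obtain ⟨v0⟩ : Nonempty V := Fintype.card_pos_iff.mp hn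
    refine ⟨fun _ _ => v0, by simp, by simp, by simp, ?_, ?_⟩
    · intro v
      simp only [L1, filter_empty, card_empty, Nat.cast_zero]
      positivity
    · intro x y _
      simp only [L2, filter_empty, card_empty, Nat.cast_zero]
      positivity
  | insert i A hiA ih =>
    obtain ⟨w, hwO, hwD, hwF, hw1, hw2⟩ := ih
    have hAN : (A.card : ℝ) ≤ lam * n ^ 3 :=
      le_trans (by exact_mod_cast Finset.card_le_univ A) hN
    -- saturated vertices and pairs
    let Sat1 : Finset V := univ.filter (fun v => η1 * n ^ 2 - 1 < (L1 A w v : ℝ))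
    let Sat2 : V → Finset V := fun x =>
      univ.filter (fun y => x ≠ y ∧ η2 * n - 1 < (L2 A S w x y : ℝ))
    let Sat3 : Finset (V × V) :=
      univ.filter (fun p => p.1 ≠ p.2 ∧ η2 * n - 1 < (L2 A S w p.1 p.2 : ℝ))
    have hS1' : (Sat1.card : ℝ) ≤ (2 * M * lam / η1) * n := by
      have h1 : (Sat1.card : ℝ) * (η1 * n ^ 2 / 2) ≤ ∑ v ∈ Sat1, (L1 A w v : ℝ) := by
        rw [← nsmul_eq_mul, ← Finset.sum_const]
        refine Finset.sum_le_sum fun v hv => ?_
        have := (Finset.mem_filter.mp hv).2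
        linarith
      have h2 : ∑ v ∈ Sat1, (L1 A w v : ℝ) ≤ ∑ v, (L1 A w v : ℝ) :=
        Finset.sum_le_sum_of_subset_of_nonneg (Finset.subset_univ _) (fun _ _ _ => by positivity)
      have h3 : ∑ v, (L1 A w v : ℝ) ≤ (M : ℝ) * A.card := by exact_mod_cast sum_L1_le A w
      have h4 : (Sat1.card : ℝ) * (η1 * n ^ 2 / 2) ≤ (M : ℝ) * (lam * n ^ 3) :=
        h1.trans (h2.trans (h3.trans (mul_le_mul_of_nonneg_left hAN (by positivity))))
      have h5 : (2 * M * lam / η1) * n * (η1 * n ^ 2 / 2) = (M : ℝ) * (lam * n ^ 3) := by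
        field_simp
      rw [← h5] at h4
      exact le_of_mul_le_mul_right h4 (by positivity)
    have hS2' : ∀ x ∈ S i, ((Sat2 x).card : ℝ) ≤ (2 * (s + M) * (lam + η1) / η2) * n := by
      intro x _
      have h1 : ((Sat2 x).card : ℝ) * (η2 * n / 2) ≤ ∑ y ∈ Sat2 x, (L2 A S w x y : ℝ) := by
        rw [← nsmul_eq_mul, ← Finset.sum_const]
        refine Finset.sum_le_sum fun v hv => ?_
        have := (Finset.mem_filter.mp hv).2.2
        linarith
      have h2 : ∑ y ∈ Sat2 x, (L2 A S w x y : ℝ) ≤ ∑ y, (L2 A S w x y : ℝ) :=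
        Finset.sum_le_sum_of_subset_of_nonneg (Finset.subset_univ _) (fun _ _ _ => by positivity)
      have h3 : ∑ y, (L2 A S w x y : ℝ) ≤
          ((s : ℝ) + M) * (((A.filter (fun i => x ∈ S i)).card : ℝ) + L1 A w x) := by
        exact_mod_cast sum_L2_le A hS w x
      have h3' : ((A.filter (fun i => x ∈ S i)).card : ℝ) ≤ lam * n ^ 2 := by
        refine le_trans ?_ (hS1 x)
        exact_mod_cast Finset.card_le_card
          (Finset.filter_subset_filter _ (Finset.subset_univ A))
      have h4 : ((Sat2 x).card : ℝ) * (η2 * n / 2) ≤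
          ((s : ℝ) + M) * (lam * n ^ 2 + η1 * n ^ 2) :=
        h1.trans (h2.trans (h3.trans (mul_le_mul_of_nonneg_left (add_le_add h3' (hw1 x))
          (by positivity))))
      have h5 : (2 * (s + M) * (lam + η1) / η2) * n * (η2 * n / 2) =
          ((s : ℝ) + M) * (lam * n ^ 2 + η1 * n ^ 2) := by
        field_simp
      rw [← h5] at h4
      exact le_of_mul_le_mul_right h4 (by positivity)
    have hS3' : (Sat3.card : ℝ) ≤ (2 * (s + M) * (s + M) * lam / η2) * n ^ 2 := by
      have h1 : (Sat3.card : ℝ) * (η2 * n / 2) ≤ ∑ p ∈ Sat3, (L2 A S w p.1 p.2 : ℝ) := by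
        rw [← nsmul_eq_mul, ← Finset.sum_const]
        refine Finset.sum_le_sum fun v hv => ?_
        have := (Finset.mem_filter.mp hv).2.2
        linarith
      have h2 : ∑ p ∈ Sat3, (L2 A S w p.1 p.2 : ℝ) ≤ ∑ p : V × V, (L2 A S w p.1 p.2 : ℝ) :=
        Finset.sum_le_sum_of_subset_of_nonneg (Finset.subset_univ _) (fun _ _ _ => by positivity)
      have h3 : ∑ p : V × V, (L2 A S w p.1 p.2 : ℝ) ≤ ((s : ℝ) + M) * (s + M) * A.card := by
        exact_mod_cast sum_L2_le' A hS w
      have h4 : (Sat3.card : ℝ) * (η2 * n / 2) ≤ ((s : ℝ) + M) * (s + M) * (lam * n ^ 3) :=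
        h1.trans (h2.trans (h3.trans (mul_le_mul_of_nonneg_left hAN (by positivity))))
      have h5 : (2 * (s + M) * (s + M) * lam / η2) * n ^ 2 * (η2 * n / 2) =
          ((s : ℝ) + M) * (s + M) * (lam * n ^ 3) := by
        field_simp
      rw [← h5] at h4
      exact le_of_mul_le_mul_right h4 (by positivity)
    -- the used triples
    have hU : ∀ x y, x ≠ y → (codeg (F ∪ A.biUnion (fun i => E i (w i))) x y : ℝ) ≤
        (lam + (s + M) * (η2 + lam)) * n := by
      intro x y hxy
      have h1 : (codeg (F ∪ A.biUnion (fun i => E i (w i))) x y : ℝ) ≤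
          (codeg F x y : ℝ) + (codeg (A.biUnion (fun i => E i (w i))) x y : ℝ) := by
        exact_mod_cast codeg_union_le _ _ x y
      have h2 : (codeg (A.biUnion (fun i => E i (w i))) x y : ℝ) ≤
          ((s : ℝ) + M) * ((L2 A S w x y : ℝ) + ((A.filter (fun i => {x, y} ∈ Pi i)).card : ℝ)) := by
        exact_mod_cast codeg_biUnion_le A hS Pi E w (fun i hi => hE i (w i) (hwO i hi)) hxy
      have h3 : ((A.filter (fun i => {x, y} ∈ Pi i)).card : ℝ) ≤ lam * n := by
        refine le_trans ?_ (hPi x y hxy)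
        exact_mod_cast Finset.card_le_card
          (Finset.filter_subset_filter _ (Finset.subset_univ A))
      have h4 := hF x y hxy
      have h5 := hw2 x y hxy
      have h6 : ((s : ℝ) + M) * ((L2 A S w x y : ℝ) +
          ((A.filter (fun i => {x, y} ∈ Pi i)).card : ℝ)) ≤ ((s : ℝ) + M) * (η2 * n + lam * n) :=
        mul_le_mul_of_nonneg_left (add_le_add h5 h3) (by positivity)
      calc _ ≤ _ := h1
        _ ≤ lam * n + ((s : ℝ) + M) * (η2 * n + lam * n) := add_le_add h4 (h2.trans h6)
        _ = _ := by ring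
    obtain ⟨w0, hw0, hs1, hs2, hs3, hs4⟩ := select (s := s) (S i) (hS i) (Om i) (E i)
      (a1 := 2 * M * lam / η1) (a2 := 2 * (s + M) * (lam + η1) / η2)
      (a3 := 2 * (s + M) * (s + M) * lam / η2) (θ := lam + (s + M) * (η2 + lam))
      (by positivity) (by positivity) (by positivity) (by positivity) (hOm i) hn Sat1 hS1' Sat2
      hS2' Sat3 hS3' (F ∪ A.biUnion (fun i => E i (w i))) hU
      (fun w hw T hT => ⟨(hE i w hw T hT).1, (hE i w hw T hT).2.1, (hE i w hw T hT).2.2.1⟩) hlt
    have hinj := (hw i w0 hw0).1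
    have hnew := (hw i w0 hw0).2
    have hne : ∀ j ∈ A, j ≠ i := fun j hj h => hiA (h ▸ hj)
    have hupd : ∀ j ∈ A, Function.update w i w0 j = w j := fun j hj =>
      Function.update_of_ne (hne j hj) _ _
    have hupi : Function.update w i w0 i = w0 := Function.update_self _ _ _
    have hdis : ∀ j ∈ A, Disjoint (E i w0) (E j (w j)) := by
      intro j hj
      refine Finset.disjoint_of_subset_right ?_ hs4
      exact (Finset.subset_biUnion_of_mem (fun i => E i (w i)) hj).trans Finset.subset_union_right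
    refine ⟨Function.update w i w0, ?_, ?_, ?_, ?_, ?_⟩
    · intro j hj
      rcases Finset.mem_insert.mp hj with rfl | hj
      · rw [hupi]
        exact hw0
      · rw [hupd j hj]
        exact hwO j hj
    · intro j hj j' hj' hjj
      rcases Finset.mem_insert.mp hj with rfl | hjA
      · rcases Finset.mem_insert.mp hj' with rfl | hj'
        · exact absurd rfl hjj
        · rw [hupi, hupd j' hj']
          exact hdis j' hj'
      · rcases Finset.mem_insert.mp hj' with rfl | hj'
        · rw [hupi, hupd j hjA]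
          exact (hdis j hjA).symm
        · rw [hupd j hjA, hupd j' hj']
          exact hwD j hjA j' hj' hjj
    · intro j hj
      rcases Finset.mem_insert.mp hj with rfl | hj
      · rw [hupi]
        exact Finset.disjoint_of_subset_right Finset.subset_union_left hs4
      · rw [hupd j hj]
        exact hwF j hj
    · intro v
      have hL : L1 (insert i A) (Function.update w i w0) v =
          (if ∃ j, w0 j = v then 1 else 0) + L1 A w v := by
        unfold L1
        rw [Finset.card_filter, Finset.sum_insert hiA, Finset.card_filter, hupi]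
        congr 1
        refine Finset.sum_congr rfl fun j hj => ?_
        rw [hupd j hj]
      rw [hL]
      by_cases hv : ∃ j, w0 j = v
      · rw [if_pos hv]
        obtain ⟨j, rfl⟩ := hv
        have h1 := hs1 j
        simp only [Sat1, mem_filter, mem_univ, true_and, not_lt] at h1
        push_cast
        linarith
      · rw [if_neg hv, zero_add]
        exact hw1 v
    · intro x y hxy
      have hL : L2 (insert i A) S (Function.update w i w0) x y =
          (if ((x ∈ S i ∨ ∃ j, w0 j = x) ∧ (y ∈ S i ∨ ∃ j, w0 j = y) ∧ ¬ (x ∈ S i ∧ y ∈ S i))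
            then 1 else 0) + L2 A S w x y := by
        unfold L2
        rw [Finset.card_filter, Finset.sum_insert hiA, Finset.card_filter]
        congr 1
        · simp only [mem_Qs, hupi]
        · refine Finset.sum_congr rfl fun j hj => ?_
          simp only [mem_Qs, hupd j hj]
      rw [hL]
      by_cases hv : ((x ∈ S i ∨ ∃ j, w0 j = x) ∧ (y ∈ S i ∨ ∃ j, w0 j = y) ∧
        ¬ (x ∈ S i ∧ y ∈ S i))
      · rw [if_pos hv]
        have hle : (L2 A S w x y : ℝ) ≤ η2 * n - 1 := by
          obtain ⟨hx, hy, hnot⟩ := hv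
          rcases hx with hx | ⟨j, hj⟩
          · rcases hy with hy | ⟨j', hj'⟩
            · exact absurd ⟨hx, hy⟩ hnot
            · have h1 := hs2 x hx j'
              rw [hj'] at h1
              simp only [Sat2, mem_filter, mem_univ, true_and, not_and, not_lt] at h1
              exact h1 hxy
          · rcases hy with hy | ⟨j', hj'⟩
            · have h1 := hs2 y hy j
              rw [hj] at h1
              simp only [Sat2, mem_filter, mem_univ, true_and, not_and, not_lt] at h1
              rw [L2_comm]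
              exact h1 hxy.symm
            · have hjj : j ≠ j' := by
                rintro rfl
                exact hxy (hj.symm.trans hj')
              have h1 := hs3 j j' hjj
              rw [hj, hj'] at h1
              simp only [Sat3, mem_filter, mem_univ, true_and, not_and, not_lt] at h1
              exact h1 hxy
        push_cast
        linarith
      · rw [if_neg hv, zero_add]
        exact hw2 x y hxy

/-- The constants. -/
theorem emb_const (s M : ℕ) {c η : ℝ} (hc : 0 < c) (hη : 0 < η) :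
    ∃ η1 η2 lam : ℝ, 0 < η1 ∧ 0 < η2 ∧ 0 < lam ∧ η1 ≤ η ∧ η2 ≤ η ∧
      ((s : ℝ) + M) * (η2 + lam) ≤ η ∧
      (M : ℝ) * (2 * M * lam / η1) + (s * M : ℝ) * (2 * (s + M) * (lam + η1) / η2) +
      (M * M : ℝ) * (2 * (s + M) * (s + M) * lam / η2) +
      (s * s * M : ℝ) * (lam + (s + M) * (η2 + lam)) +
      (s * (M * M) : ℝ) * (lam + (s + M) * (η2 + lam)) +
      (M * (M * M) : ℝ) * (lam + (s + M) * (η2 + lam)) < c := by
  obtain ⟨e, he0, he1, hec, heη⟩ : ∃ e : ℝ, 0 < e ∧ e ≤ 1 ∧ e ≤ c ∧ e ≤ η :=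
    ⟨min 1 (min c η), by positivity, min_le_left _ _, (min_le_right _ _).trans (min_le_left _ _),
      (min_le_right _ _).trans (min_le_right _ _)⟩
  obtain ⟨k, hk⟩ : ∃ k : ℝ, k = (s : ℝ) + M + 1 := ⟨_, rfl⟩
  have hs0 : (0 : ℝ) ≤ s := Nat.cast_nonneg s
  have hM0 : (0 : ℝ) ≤ M := Nat.cast_nonneg M
  have hk1 : 1 ≤ k := by rw [hk]; linarith
  have hk0 : 0 < k := by linarith
  have hsk : (s : ℝ) ≤ k := by rw [hk]; linarith
  have hMk : (M : ℝ) ≤ k := by rw [hk]; linarith
  have hsMk : (s : ℝ) + M ≤ k := by rw [hk]; linarith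
  obtain ⟨η2, h2⟩ : ∃ η2 : ℝ, η2 = e / (64 * k ^ 4) := ⟨_, rfl⟩
  obtain ⟨η1, h1⟩ : ∃ η1 : ℝ, η1 = e * η2 / (64 * k ^ 3) := ⟨_, rfl⟩
  obtain ⟨lam, hl⟩ : ∃ lam : ℝ, lam = e * η1 / (64 * k ^ 4) := ⟨_, rfl⟩
  have h20 : 0 < η2 := by rw [h2]; positivity
  have h10 : 0 < η1 := by rw [h1]; positivity
  have hl0 : 0 < lam := by rw [hl]; positivity
  have hk3 : 1 ≤ k ^ 3 := one_le_pow₀ hk1
  have hk4 : 1 ≤ k ^ 4 := one_le_pow₀ hk1
  have h12 : η1 ≤ η2 := by
    rw [h1, div_le_iff₀ (by positivity)]
    nlinarith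
  have hl1 : lam ≤ η1 := by
    rw [hl, div_le_iff₀ (by positivity)]
    nlinarith
  have hl2 : lam ≤ η2 := hl1.trans h12
  have h2e : η2 ≤ e := by
    rw [h2, div_le_iff₀ (by positivity)]
    nlinarith
  have e2 : k ^ 4 * η2 = e / 64 := by rw [h2]; field_simp
  have e1 : k ^ 3 * η1 / η2 = e / 64 := by rw [h1]; field_simp
  have el : k ^ 4 * lam / η1 = e / 64 := by rw [hl]; field_simp
  have t0 : ((s : ℝ) + M) * (η2 + lam) ≤ 2 * k * η2 := by
    have : ((s : ℝ) + M) * (η2 + lam) ≤ k * (η2 + η2) :=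
      mul_le_mul hsMk (by linarith) (by positivity) hk0.le
    linarith
  have tθ : lam + ((s : ℝ) + M) * (η2 + lam) ≤ 3 * k * η2 := by nlinarith
  have hθ0 : 0 ≤ lam + ((s : ℝ) + M) * (η2 + lam) := by positivity
  refine ⟨η1, η2, lam, h10, h20, hl0, by linarith, by linarith, ?_, ?_⟩
  · have : k * η2 ≤ k ^ 4 * η2 := by
      have : k ≤ k ^ 4 := by
        calc k = k * 1 := by ring
          _ ≤ k * k ^ 3 := mul_le_mul_of_nonneg_left hk3 hk0.le
          _ = k ^ 4 := by ring
      exact mul_le_mul_of_nonneg_right this h20.le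
    linarith
  · -- the six summands
    have b1 : (M : ℝ) * (2 * M * lam / η1) ≤ e / 32 := by
      have : (M : ℝ) * (2 * M * lam / η1) ≤ 2 * (k ^ 4 * lam / η1) := by
        rw [mul_div_assoc', mul_div_assoc', div_le_div_iff_of_pos_right h10]
        have hMM : (M : ℝ) * M ≤ k ^ 4 := by
          calc (M : ℝ) * M ≤ k * k := mul_le_mul hMk hMk hM0 hk0.le
            _ ≤ k ^ 4 := by nlinarith [one_le_pow₀ hk1 (n := 2)]
        nlinarith
      linarith
    have b2 : (s * M : ℝ) * (2 * (s + M) * (lam + η1) / η2) ≤ 4 * (k ^ 3 * η1 / η2) := by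
      rw [mul_div_assoc', mul_div_assoc', div_le_div_iff_of_pos_right h20]
      have hsM : (s : ℝ) * M ≤ k * k := mul_le_mul hsk hMk hM0 hk0.le
      have h5 : (2 : ℝ) * (s + M) * (lam + η1) ≤ 2 * k * (2 * η1) := by
        have : (2 : ℝ) * (s + M) ≤ 2 * k := by linarith
        exact mul_le_mul this (by linarith) (by positivity) (by positivity)
      calc (s * M : ℝ) * (2 * (s + M) * (lam + η1)) ≤ (k * k) * (2 * k * (2 * η1)) :=
            mul_le_mul hsM h5 (by positivity) (by positivity)
        _ = 4 * (k ^ 3 * η1) := by ring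
    have b3 : (M * M : ℝ) * (2 * (s + M) * (s + M) * lam / η2) ≤ 2 * (k ^ 4 * lam / η1) := by
      have h6 : (M * M : ℝ) * (2 * (s + M) * (s + M) * lam / η2) ≤
          (M * M : ℝ) * (2 * (s + M) * (s + M) * lam / η1) := by
        refine mul_le_mul_of_nonneg_left ?_ (by positivity)
        exact div_le_div_of_nonneg_left (by positivity) h10 h12
      refine h6.trans ?_
      rw [mul_div_assoc', mul_div_assoc', div_le_div_iff_of_pos_right h10]
      have hMM : (M : ℝ) * M ≤ k * k := mul_le_mul hMk hMk hM0 hk0.le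
      have h5 : (2 : ℝ) * (s + M) * (s + M) ≤ 2 * k * k := by
        have : (2 : ℝ) * (s + M) ≤ 2 * k := by linarith
        exact mul_le_mul this hsMk (by positivity) (by positivity)
      calc (M * M : ℝ) * (2 * (s + M) * (s + M) * lam)
          ≤ (k * k) * (2 * k * k * lam) :=
            mul_le_mul hMM (mul_le_mul_of_nonneg_right h5 hl0.le) (by positivity) (by positivity)
        _ = 2 * (k ^ 4 * lam) := by ring
    have hθk : k ^ 3 * (lam + ((s : ℝ) + M) * (η2 + lam)) ≤ 3 * (k ^ 4 * η2) := by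
      calc k ^ 3 * (lam + ((s : ℝ) + M) * (η2 + lam)) ≤ k ^ 3 * (3 * k * η2) :=
            mul_le_mul_of_nonneg_left tθ (by positivity)
        _ = 3 * (k ^ 4 * η2) := by ring
    have c4 : (s * s * M : ℝ) ≤ k ^ 3 := by
      calc (s * s * M : ℝ) ≤ k * k * k :=
            mul_le_mul (mul_le_mul hsk hsk hs0 hk0.le) hMk hM0 (by positivity)
        _ = k ^ 3 := by ring
    have c5 : (s * (M * M) : ℝ) ≤ k ^ 3 := by
      calc (s * (M * M) : ℝ) ≤ k * (k * k) :=
            mul_le_mul hsk (mul_le_mul hMk hMk hM0 hk0.le) (by positivity) hk0.le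
        _ = k ^ 3 := by ring
    have c6 : (M * (M * M) : ℝ) ≤ k ^ 3 := by
      calc (M * (M * M) : ℝ) ≤ k * (k * k) :=
            mul_le_mul hMk (mul_le_mul hMk hMk hM0 hk0.le) (by positivity) hk0.le
        _ = k ^ 3 := by ring
    have b4 := mul_le_mul_of_nonneg_right c4 hθ0
    have b5 := mul_le_mul_of_nonneg_right c5 hθ0
    have b6 := mul_le_mul_of_nonneg_right c6 hθ0
    linarith

/-- EMBEDDING LEMMA.  `s` bounds the number of old vertices, `M` is the number of new vertices of
a task, `c` the density of the candidates, `η` the final load. -/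
theorem emb (s M : ℕ) {c η : ℝ} (hc : 0 < c) (hη : 0 < η) :
    ∃ lam : ℝ, 0 < lam ∧ ∃ n0 : ℕ, ∀ {V : Type} [Fintype V], n0 ≤ Fintype.card V →
      ∀ {ι : Type} [Fintype ι] (S : ι → Finset V) (Pi : ι → Finset (Finset V))
        (Om : ι → Finset (Fin M → V)) (E : ι → (Fin M → V) → Finset (Finset V))
        (F : Finset (Finset V)),
        (Fintype.card ι : ℝ) ≤ lam * (Fintype.card V : ℝ) ^ 3 →
        (∀ i, (S i).card ≤ s) →
        (∀ i, c * (Fintype.card V : ℝ) ^ M ≤ ((Om i).card : ℝ)) →
        (∀ i, ∀ w ∈ Om i, Function.Injective w ∧ ∀ j, w j ∉ S i) →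
        (∀ i, ∀ w ∈ Om i, ∀ T ∈ E i w, T.card = 3 ∧ (∀ x ∈ T, x ∈ S i ∨ ∃ j, w j = x) ∧
          (∃ j, w j ∈ T) ∧ ∀ x ∈ T, ∀ y ∈ T, x ≠ y → x ∈ S i → y ∈ S i → {x, y} ∈ Pi i) →
        (∀ x, ((univ.filter (fun i => x ∈ S i)).card : ℝ) ≤ lam * (Fintype.card V : ℝ) ^ 2) →
        (∀ x y, x ≠ y → ((univ.filter (fun i => {x, y} ∈ Pi i)).card : ℝ) ≤
          lam * (Fintype.card V : ℝ)) →
        (∀ x y, x ≠ y → (codeg F x y : ℝ) ≤ lam * (Fintype.card V : ℝ)) →
        ∃ w : ι → Fin M → V, (∀ i, w i ∈ Om i) ∧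
          (∀ i j, i ≠ j → Disjoint (E i (w i)) (E j (w j))) ∧
          (∀ i, Disjoint (E i (w i)) F) ∧
          (∀ x y, x ≠ y →
            (codeg (univ.biUnion (fun i => E i (w i))) x y : ℝ) ≤ η * (Fintype.card V : ℝ)) ∧
          (∀ x y, x ≠ y → ((univ.filter (fun i => (x ∈ S i ∨ ∃ j, w i j = x) ∧
            (y ∈ S i ∨ ∃ j, w i j = y) ∧ ¬ (x ∈ S i ∧ y ∈ S i))).card : ℝ) ≤
              η * (Fintype.card V : ℝ)) ∧
          (∀ x, ((univ.filter (fun i => ∃ j, w i j = x)).card : ℝ) ≤
            η * (Fintype.card V : ℝ) ^ 2) := by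
  obtain ⟨η1, η2, lam, h10, h20, hl0, h1η, h2η, hcod, hlt⟩ := emb_const s M hc hη
  refine ⟨lam, hl0, max 1 (max ⌈2 / η1⌉₊ ⌈2 / η2⌉₊), ?_⟩
  intro V _ hn0 ι _ S Pi Om E F hN hS hOm hw hE hS1 hPi hF
  have hn1 : 1 ≤ Fintype.card V := (le_max_left _ _).trans hn0
  have hn2 : ⌈2 / η1⌉₊ ≤ Fintype.card V := ((le_max_left _ _).trans (le_max_right _ _)).trans hn0
  have hn3 : ⌈2 / η2⌉₊ ≤ Fintype.card V := ((le_max_right _ _).trans (le_max_right _ _)).trans hn0
  have hn1' : (1 : ℝ) ≤ (Fintype.card V : ℝ) := by exact_mod_cast hn1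
  have hn2' : 2 / η1 ≤ (Fintype.card V : ℝ) := (Nat.le_ceil _).trans (by exact_mod_cast hn2)
  have hn3' : 2 / η2 ≤ (Fintype.card V : ℝ) := (Nat.le_ceil _).trans (by exact_mod_cast hn3)
  have g1 : 2 ≤ η1 * (Fintype.card V : ℝ) ^ 2 := by
    rw [div_le_iff₀ h10] at hn2'
    have : η1 * (Fintype.card V : ℝ) ≤ η1 * (Fintype.card V : ℝ) ^ 2 := by
      refine mul_le_mul_of_nonneg_left ?_ h10.le
      nlinarith
    linarith
  have g2 : 2 ≤ η2 * (Fintype.card V : ℝ) := by
    rw [div_le_iff₀ h20] at hn3'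
    linarith
  obtain ⟨w, hwO, hwD, hwF, hw1, hw2⟩ := emb_aux h10 h20 hl0 (by omega) g1 g2 hlt S Pi Om E F hN
    hS hOm hw hE hS1 hPi hF univ
  refine ⟨w, fun i => hwO i (mem_univ i), fun i j hij => hwD i (mem_univ i) j (mem_univ j) hij,
    fun i => hwF i (mem_univ i), ?_, ?_, ?_⟩
  · intro x y hxy
    have h2 : (codeg (univ.biUnion (fun i => E i (w i))) x y : ℝ) ≤
        ((s : ℝ) + M) * ((L2 univ S w x y : ℝ) +
          ((univ.filter (fun i => {x, y} ∈ Pi i)).card : ℝ)) := by
      exact_mod_cast codeg_biUnion_le univ hS Pi E w (fun i hi => hE i (w i) (hwO i hi)) hxy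
    have h3 := hPi x y hxy
    have h5 := hw2 x y hxy
    have h6 : ((s : ℝ) + M) * ((L2 univ S w x y : ℝ) +
        ((univ.filter (fun i => {x, y} ∈ Pi i)).card : ℝ)) ≤
        ((s : ℝ) + M) * (η2 * (Fintype.card V : ℝ) + lam * (Fintype.card V : ℝ)) :=
      mul_le_mul_of_nonneg_left (add_le_add h5 h3) (by positivity)
    calc _ ≤ _ := h2
      _ ≤ _ := h6
      _ = ((s : ℝ) + M) * (η2 + lam) * (Fintype.card V : ℝ) := by ring
      _ ≤ _ := mul_le_mul_of_nonneg_right hcod (by positivity)
  · intro x y hxy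
    have h5 := hw2 x y hxy
    have h6 : (univ.filter (fun i => (x ∈ S i ∨ ∃ j, w i j = x) ∧
            (y ∈ S i ∨ ∃ j, w i j = y) ∧ ¬ (x ∈ S i ∧ y ∈ S i))).card = L2 univ S w x y := by
      unfold L2
      congr 1
      ext i
      simp only [mem_filter, mem_univ, true_and, mem_Qs]
    rw [h6]
    exact h5.trans (mul_le_mul_of_nonneg_right h2η (by positivity))
  · intro x
    exact (hw1 x).trans (mul_le_mul_of_nonneg_right h1η (by positivity))

end Final

end MP5c685b.Emb
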